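import Mathlib

/-!
# k-equilateral n-gons spanning E^(2k-1)

For every `k ≥ 2` and every `n > 2k + 1` there is a `k`-equilateral `n`-gon which spans
`E^(2k-1)` (Q1).

The vertices are vertices of a regular simplex with `2k` vertices, in the cyclic order given by a
map from `ZMod n` onto the set of vertices for which any `k + 1` consecutive values are distinct.
-/

set_option autoImplicit false

namespace Pool.Agent.Results.MP_fb0157_co.SpansOddDimension

/-- An `n`-gon in `E ^ d` is a cyclically ordered tuple `x : ZMod n → E ^ d`.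
It is `k`-equilateral if for each `j = 1, …, k` the distance between `x i` and `x (i + j)`
is the same number `c j` for every `i`. -/
def IsKEquilateral (k : ℕ) {n d : ℕ} (x : ZMod n → EuclideanSpace ℝ (Fin d)) : Prop :=
  ∃ c : ℕ → ℝ, ∀ j : ℕ, 1 ≤ j → j ≤ k → ∀ i : ZMod n, dist (x i) (x (i + (j : ZMod n))) = c j

/-- The `n`-gon `x` in `E ^ d` spans `E ^ d`: the affine hull of its vertices is the whole
space (has dimension exactly `d`). -/
def Spans {n d : ℕ} (x : ZMod n → EuclideanSpace ℝ (Fin d)) : Prop :=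
  affineSpan ℝ (Set.range x) = ⊤

/-! ### The words -/

/-- `f` is a proper word of length `n` with values less than `2k`: cyclically, any two letters at
distance at most `k` are different. -/
def Good (k n : ℕ) (f : ℕ → ℕ) : Prop :=
  (∀ i, i < n → f i < 2 * k) ∧ (∀ i, i < n → ∀ j, 1 ≤ j → j ≤ k → f ((i + j) % n) ≠ f i)

theorem good_base (k a b : ℕ) (ha : a = k + 1 ∨ a = k + 2) (hb1 : k + 1 ≤ b) (hb2 : b ≤ 2 * k)
    (ha2 : a ≤ 2 * k) : Good k (a + b) (fun i => if i < a then i else i - a) := by
  refine ⟨fun i hi => ?_, fun i hi j hj1 hj2 => ?_⟩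
  · dsimp only
    split_ifs <;> omega
  · dsimp only
    rcases Nat.lt_or_ge (i + j) (a + b) with h | h
    · rw [Nat.mod_eq_of_lt h]
      split_ifs <;> omega
    · have : (i + j) % (a + b) = i + j - (a + b) := by
        rw [Nat.mod_eq_sub_mod h, Nat.mod_eq_of_lt (by omega)]
      rw [this]
      split_ifs <;> omega

theorem good_step (k n : ℕ) (hn : 2 * k + 2 ≤ n) (f : ℕ → ℕ) (hf : Good k n f)
    (h0 : ∀ i, i ≤ k → f i = i) (hk : 1 ≤ k) :
    Good k (n + (k + 1)) (fun i => if i < k + 1 then i else f (i - (k + 1))) := by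
  obtain ⟨h1, h2⟩ := hf
  refine ⟨fun i hi => ?_, fun i hi j hj1 hj2 => ?_⟩
  · dsimp only
    split_ifs with h
    · omega
    · exact h1 _ (by omega)
  · dsimp only
    rcases Nat.lt_or_ge (i + j) (n + (k + 1)) with h | h
    · rw [Nat.mod_eq_of_lt h]
      rcases Nat.lt_or_ge i (k + 1) with hi' | hi'
      · rw [if_pos hi']
        split_ifs with h'
        · omega
        · rw [h0 _ (by omega)]
          omega
      · rw [if_neg (by omega : ¬ i < k + 1), if_neg (by omega : ¬ i + j < k + 1)]
        have := h2 (i - (k + 1)) (by omega) j hj1 hj2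
        rw [Nat.mod_eq_of_lt (by omega)] at this
        rw [show i + j - (k + 1) = i - (k + 1) + j by omega]
        exact this
    · have e : (i + j) % (n + (k + 1)) = i + j - (n + (k + 1)) := by
        rw [Nat.mod_eq_sub_mod h, Nat.mod_eq_of_lt (by omega)]
      rw [e, if_pos (by omega : i + j - (n + (k + 1)) < k + 1),
        if_neg (by omega : ¬ i < k + 1)]
      have := h2 (i - (k + 1)) (by omega) j hj1 hj2
      rw [Nat.mod_eq_sub_mod (by omega), Nat.mod_eq_of_lt (by omega), h0 _ (by omega)] at this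
      rw [show i + j - (n + (k + 1)) = i - (k + 1) + j - n by omega]
      exact this

theorem exists_good (k : ℕ) (hk : 2 ≤ k) (n : ℕ) (hn : 2 * k + 2 ≤ n) :
    ∃ f : ℕ → ℕ, Good k n f ∧ ∀ i, i ≤ k → f i = i := by
  induction n using Nat.strong_induction_on with
  | _ n ih =>
    rcases Nat.lt_or_ge n (3 * k + 2) with h | h
    · refine ⟨fun i => if i < k + 1 then i else i - (k + 1), ?_, fun i hi => ?_⟩
      · have := good_base k (k + 1) (n - (k + 1)) (Or.inl rfl) (by omega) (by omega) (by omega)
        rwa [show k + 1 + (n - (k + 1)) = n by omega] at this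
      · dsimp only
        rw [if_pos (by omega)]
    · rcases Nat.lt_or_ge n (3 * k + 3) with h' | h'
      · refine ⟨fun i => if i < k + 2 then i else i - (k + 2), ?_, fun i hi => ?_⟩
        · have := good_base k (k + 2) (n - (k + 2)) (Or.inr rfl) (by omega) (by omega) (by omega)
          rwa [show k + 2 + (n - (k + 2)) = n by omega] at this
        · dsimp only
          rw [if_pos (by omega)]
      · obtain ⟨f, hf, h0⟩ := ih (n - (k + 1)) (by omega) (by omega)
        refine ⟨fun i => if i < k + 1 then i else f (i - (k + 1)), ?_, fun i hi => ?_⟩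
        · have := good_step k (n - (k + 1)) (by omega) f hf h0 (by omega)
          rwa [show n - (k + 1) + (k + 1) = n by omega] at this
        · dsimp only
          rw [if_pos (by omega)]

/-- A proper cyclic word with letters in `Fin (2k)`. -/
def Proper (k : ℕ) {n : ℕ} (σ : ZMod n → Fin (2 * k)) : Prop :=
  ∀ i : ZMod n, ∀ j : ℕ, 1 ≤ j → j ≤ k → σ (i + (j : ZMod n)) ≠ σ i

theorem exists_proper (k : ℕ) (hk : 2 ≤ k) (n : ℕ) (hn : 2 * k + 2 ≤ n) :
    ∃ σ : ZMod n → Fin (2 * k), Proper k σ := by
  obtain ⟨f, ⟨h1, h2⟩, -⟩ := exists_good k hk n hn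
  have hn0 : NeZero n := ⟨by omega⟩
  refine ⟨fun i => ⟨f i.val, h1 _ (ZMod.val_lt i)⟩, fun i j hj1 hj2 h => ?_⟩
  have h' : f (i + (j : ZMod n)).val = f i.val := congrArg Fin.val h
  rw [ZMod.val_add, ZMod.val_natCast, Nat.add_mod_mod] at h'
  exact h2 i.val (ZMod.val_lt i) j hj1 hj2 h'

/-- All letters can be used. -/
theorem exists_proper_surjective (k : ℕ) (hk : 2 ≤ k) (n : ℕ) (hn : 2 * k + 2 ≤ n) :
    ∃ σ : ZMod n → Fin (2 * k), Proper k σ ∧ Function.Surjective σ := by
  classical
  have hn0 : NeZero n := ⟨by omega⟩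
  obtain ⟨σ₀, hσ₀⟩ := exists_proper k hk n hn
  obtain ⟨σ, hσ, hmax⟩ := (Finset.univ.filter
    (fun σ : ZMod n → Fin (2 * k) => Proper k σ)).exists_max_image
    (fun σ => (Finset.univ.image σ).card) ⟨σ₀, by simpa using hσ₀⟩
  rw [Finset.mem_filter] at hσ
  refine ⟨σ, hσ.2, fun c => ?_⟩
  by_contra hc
  push Not at hc
  -- two positions with the same letter
  have hcard : ¬ Function.Injective σ := by
    intro hinj
    have := Fintype.card_le_of_injective σ hinj
    rw [ZMod.card, Fintype.card_fin] at this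
    omega
  rw [Function.not_injective_iff] at hcard
  obtain ⟨a, b, hab, hne⟩ := hcard
  have hP : Proper k (Function.update σ a c) := by
    intro i j hj1 hj2
    have hj0 : (j : ZMod n) ≠ 0 := by
      intro h0
      rw [ZMod.natCast_eq_zero_iff] at h0
      have := Nat.le_of_dvd (by omega) h0
      omega
    by_cases h1 : i = a
    · subst h1
      rw [Function.update_self, Function.update_of_ne]
      · exact hc _
      · intro h
        exact hj0 (by simpa using h)
    · rw [Function.update_of_ne h1]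
      by_cases h2 : i + (j : ZMod n) = a
      · rw [h2, Function.update_self]
        exact (hc _).symm
      · rw [Function.update_of_ne h2]
        exact hσ.2 i j hj1 hj2
  have h1 := hmax (Function.update σ a c) (by simpa using hP)
  have h2 : insert c (Finset.univ.image σ) ⊆ Finset.univ.image (Function.update σ a c) := by
    intro d hd
    rw [Finset.mem_insert] at hd
    rcases hd with rfl | hd
    · rw [Finset.mem_image]
      exact ⟨a, Finset.mem_univ _, Function.update_self ..⟩
    · rw [Finset.mem_image] at hd ⊢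
      obtain ⟨i, -, rfl⟩ := hd
      by_cases h : i = a
      · exact ⟨b, Finset.mem_univ _, by rw [Function.update_of_ne (Ne.symm hne), h, hab]⟩
      · exact ⟨i, Finset.mem_univ _, Function.update_of_ne h ..⟩
  have h3 := Finset.card_le_card h2
  rw [Finset.card_insert_of_notMem (by
    intro h
    rw [Finset.mem_image] at h
    obtain ⟨i, -, hi⟩ := h
    exact hc i hi)] at h3
  omega

/-! ### The regular simplex -/

/-- The last coordinate value. -/
noncomputable def cc (d : ℕ) : ℝ := (1 + √(1 + d)) / d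

/-- The vertices of a regular simplex with `d + 1` vertices in `E ^ d`. -/
noncomputable def vert (d : ℕ) (m : ℕ) : EuclideanSpace ℝ (Fin d) :=
  if h : m < d then EuclideanSpace.single ⟨m, h⟩ 1 else WithLp.toLp 2 (fun _ => cc d)

theorem cc_eq (d : ℕ) (hd : 0 < d) : (d : ℝ) * cc d ^ 2 - 2 * cc d - 1 = 0 := by
  have h1 : (0 : ℝ) < d := by exact_mod_cast hd
  have h2 : √(1 + (d : ℝ)) ^ 2 = 1 + d := Real.sq_sqrt (by positivity)
  unfold cc
  field_simp
  nlinarith [h2]

theorem dist_vert (d : ℕ) (hd : 0 < d) (l m : ℕ) (hl : l ≤ d) (hm : m ≤ d) (h : l < m) :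
    dist (vert d l) (vert d m) = √2 := by
  have hl' : l < d := by omega
  rw [EuclideanSpace.dist_eq]
  congr 1
  unfold vert
  rw [dif_pos hl']
  by_cases hm' : m < d
  · rw [dif_pos hm']
    have hne : (⟨l, hl'⟩ : Fin d) ≠ ⟨m, hm'⟩ := by
      intro h'
      have := congrArg Fin.val h'
      simp at this
      omega
    have : ∀ i : Fin d, dist ((EuclideanSpace.single (⟨l, hl'⟩ : Fin d) (1 : ℝ)).ofLp i)
        ((EuclideanSpace.single (⟨m, hm'⟩ : Fin d) (1 : ℝ)).ofLp i) ^ 2 =
        (if i = ⟨l, hl'⟩ then 1 else 0) + (if i = ⟨m, hm'⟩ then 1 else 0) := by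
      intro i
      rw [EuclideanSpace.single_apply, EuclideanSpace.single_apply, Real.dist_eq, sq_abs]
      by_cases h1 : i = ⟨l, hl'⟩
      · subst h1
        simp [hne]
      · simp only [h1, if_false]
        split_ifs <;> norm_num
    rw [Finset.sum_congr rfl (fun i _ => this i), Finset.sum_add_distrib]
    simp
    norm_num
  · rw [dif_neg hm']
    have : ∀ i : Fin d, dist ((EuclideanSpace.single (⟨l, hl'⟩ : Fin d) (1 : ℝ)).ofLp i)
        ((WithLp.toLp 2 (fun _ : Fin d => cc d)).ofLp i) ^ 2 =
        cc d ^ 2 + (if i = ⟨l, hl'⟩ then 1 - 2 * cc d else 0) := by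
      intro i
      rw [EuclideanSpace.single_apply, Real.dist_eq, sq_abs]
      split_ifs <;> simp <;> ring
    rw [Finset.sum_congr rfl (fun i _ => this i), Finset.sum_add_distrib]
    simp only [Finset.sum_const, Finset.card_univ, Fintype.card_fin, nsmul_eq_mul,
      Finset.sum_ite_eq', Finset.mem_univ, if_true]
    have := cc_eq d hd
    linarith

theorem dist_vert' (d : ℕ) (hd : 0 < d) (l m : ℕ) (hl : l ≤ d) (hm : m ≤ d) (h : l ≠ m) :
    dist (vert d l) (vert d m) = √2 := by
  rcases Nat.lt_or_ge l m with h' | h'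
  · exact dist_vert d hd l m hl hm h'
  · rw [dist_comm]
    exact dist_vert d hd m l hm hl (by omega)

theorem vert_span (d : ℕ) (hd : 0 < d) (s : Set (EuclideanSpace ℝ (Fin d)))
    (hs : ∀ m ≤ d, vert d m ∈ s) : affineSpan ℝ s = ⊤ := by
  have hsub : ∀ m ≤ d, vert d m ∈ affineSpan ℝ s := fun m hm =>
    subset_affineSpan ℝ s (hs m hm)
  -- the direction contains everything
  have hdir : ∀ l ≤ d, ∀ m ≤ d, vert d l - vert d m ∈ (affineSpan ℝ s).direction :=
    fun l hl m hm => AffineSubspace.vsub_mem_direction (hsub l hl) (hsub m hm)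
  have hd1 : (1 : ℝ) ≤ d := by exact_mod_cast hd
  -- the sum of the differences e_i - v_d is (1 - d c) times the constant vector one
  have hsingle : ∀ i : Fin d, vert d i.val = EuclideanSpace.single i (1 : ℝ) := by
    intro i
    unfold vert
    rw [dif_pos i.isLt]
  have hlast : vert d d = WithLp.toLp 2 (fun _ => cc d) := by
    unfold vert
    rw [dif_neg (lt_irrefl d)]
  have hsum : ∑ i : Fin d, (vert d i.val - vert d d) ∈ (affineSpan ℝ s).direction :=
    Submodule.sum_mem _ (fun i _ => hdir _ (le_of_lt i.isLt) _ le_rfl)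
  have hval : ∑ i : Fin d, (vert d i.val - vert d d) =
      ((1 - d * cc d) / cc d) • vert d d := by
    have hc : cc d ≠ 0 := by
      unfold cc
      positivity
    ext t
    rw [hlast]
    simp only [hsingle]
    simp [Finset.sum_sub_distrib, Finset.sum_apply]
    field_simp
  have hc0 : cc d ≠ 0 := by
    unfold cc
    positivity
  have hcd : 1 - (d : ℝ) * cc d ≠ 0 := by
    unfold cc
    have h1 : (0 : ℝ) < d := by linarith
    have h2 : 0 < √(1 + (d : ℝ)) := Real.sqrt_pos.mpr (by positivity)
    have : (d : ℝ) * ((1 + √(1 + d)) / d) = 1 + √(1 + d) := by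
      field_simp
    rw [this]
    intro h
    linarith
  have hvd : vert d d ∈ (affineSpan ℝ s).direction := by
    rw [hval] at hsum
    have := Submodule.smul_mem (affineSpan ℝ s).direction ((1 - d * cc d) / cc d)⁻¹ hsum
    rwa [smul_smul, inv_mul_cancel₀ (div_ne_zero hcd hc0), one_smul] at this
  have hei : ∀ i : Fin d, EuclideanSpace.single i (1 : ℝ) ∈ (affineSpan ℝ s).direction := by
    intro i
    have := Submodule.add_mem _ (hdir i.val (le_of_lt i.isLt) d le_rfl) hvd
    rw [sub_add_cancel, hsingle] at this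
    exact this
  have htop : (affineSpan ℝ s).direction = ⊤ := by
    rw [eq_top_iff]
    intro v _
    have : v = ∑ i : Fin d, v i • EuclideanSpace.single i (1 : ℝ) := by
      ext t
      simp [Finset.sum_apply, Pi.single_apply]
    rw [this]
    exact Submodule.sum_mem _ (fun i _ => Submodule.smul_mem _ _ (hei i))
  have hne : (affineSpan ℝ s : Set (EuclideanSpace ℝ (Fin d))).Nonempty := ⟨_, hsub d le_rfl⟩
  exact (AffineSubspace.direction_eq_top_iff_of_nonempty hne).mp htop

/-- **Q1.** For every `k ≥ 2` and every `n > 2k + 1` there is a `k`-equilateral `n`-gon in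
`E ^ (2k - 1)` which spans `E ^ (2k - 1)`. -/
theorem result : ∀ k : ℕ, 2 ≤ k → ∀ n : ℕ, 2 * k + 1 < n →
    ∃ x : ZMod n → EuclideanSpace ℝ (Fin (2 * k - 1)), IsKEquilateral k x ∧ Spans x := by
  intro k hk n hn
  obtain ⟨σ, hσ, hsurj⟩ := exists_proper_surjective k hk n (by omega)
  refine ⟨fun i => vert (2 * k - 1) (σ i).val, ⟨fun _ => √2, fun j hj1 hj2 i => ?_⟩, ?_⟩
  · have h1 := (σ i).isLt
    have h2 := (σ (i + (j : ZMod n))).isLt
    refine dist_vert' _ (by omega) _ _ (by omega) (by omega) ?_
    intro h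
    exact hσ i j hj1 hj2 (Fin.ext h.symm)
  · refine vert_span _ (by omega) _ (fun m hm => ?_)
    obtain ⟨i, hi⟩ := hsurj ⟨m, by omega⟩
    exact ⟨i, by simp [hi]⟩

end Pool.Agent.Results.MP_fb0157_co.SpansOddDimension
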